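import Mathlib
import Pool.Agent.V11210.ARC.Reduce

/-!
# MP_c53602_gt, Q1: the arc-length ratio at support points is at least `1/e`

For every continuous rectifiable curve `γ : [a, b] → E²` which is not constant near `a`,
`limsup_{t → a⁺} sup {L(τ) | τ ∈ S(t)} / L(t) ≥ 1/e`.
-/

set_option autoImplicit false

open Set Filter Topology

namespace Pool.Agent.Results.MP_c53602_gt.AtLeastInvE

/-- The Euclidean plane. -/
abbrev Plane : Type := EuclideanSpace ℝ (Fin 2)

/-- The determinant of two vectors of the plane. -/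
def det (u v : Plane) : ℝ := u 0 * v 1 - u 1 * v 0

/-- `L(t)`, the length of the arc `γ|[a,t]` (total variation of `γ` on `[a,t]`). -/
noncomputable def L (γ : ℝ → Plane) (a t : ℝ) : ℝ := (eVariationOn γ (Icc a t)).toReal

/-- `Φ_t(τ) = det (γ(t) - γ(a), γ(τ))`. -/
def Phi (γ : ℝ → Plane) (a t τ : ℝ) : ℝ := det (γ t - γ a) (γ τ)

/-- `S(t)`: the parameters `τ₀ ∈ (a, t]` giving a support point of the chord `[γ(a), γ(t)]`:
all of `(a, t]` when `γ(a) = γ(t)`, and otherwise those `τ₀` which are local extrema of `Φ_t` on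
`[a, b]`. -/
def S (γ : ℝ → Plane) (a b t : ℝ) : Set ℝ :=
  {τ₀ | τ₀ ∈ Ioc a t ∧ (γ a = γ t ∨ ∃ δ > 0,
    (∀ τ ∈ Icc a b, |τ - τ₀| < δ → Phi γ a t τ ≤ Phi γ a t τ₀) ∨
    (∀ τ ∈ Icc a b, |τ - τ₀| < δ → Phi γ a t τ₀ ≤ Phi γ a t τ))}

/-- The curve translated to start at `0` and read in `ℂ`. -/
noncomputable def toC (γ : ℝ → Plane) (a t : ℝ) : ℂ := ⟨γ t 0 - γ a 0, γ t 1 - γ a 1⟩

theorem dist_toC (γ : ℝ → Plane) (a s t : ℝ) : dist (toC γ a s) (toC γ a t) = dist (γ s) (γ t) := by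
  rw [Complex.dist_eq_re_im, EuclideanSpace.dist_eq, Fin.sum_univ_two]
  simp only [toC, Real.dist_eq, sq_abs]
  congr 1
  ring

theorem edist_toC (γ : ℝ → Plane) (a s t : ℝ) :
    edist (toC γ a s) (toC γ a t) = edist (γ s) (γ t) := by
  rw [edist_dist, edist_dist, dist_toC]

theorem eVariationOn_toC (γ : ℝ → Plane) (a : ℝ) (s : Set ℝ) :
    eVariationOn (toC γ a) s = eVariationOn γ s := by
  unfold eVariationOn
  simp only [edist_toC]

theorem len_toC (γ : ℝ → Plane) (a t : ℝ) : V11210.ARC.len (toC γ a) a t = L γ a t := by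
  unfold V11210.ARC.len L
  rw [eVariationOn_toC]

theorem cdet_toC (γ : ℝ → Plane) (a t x : ℝ) :
    V11210.ARC.cdet (toC γ a t) (toC γ a x) = Phi γ a t x - Phi γ a t a := by
  unfold V11210.ARC.cdet toC Phi det
  simp only [PiLp.sub_apply]
  ring

theorem result (a b : ℝ) (hab : a < b) (γ : ℝ → Plane) (hc : ContinuousOn γ (Icc a b))
    (hr : eVariationOn γ (Icc a b) ≠ ⊤)
    (hn : ∀ δ > 0, ∃ t ∈ Icc a b, t ≤ a + δ ∧ γ t ≠ γ a) :
    1 / Real.exp 1 ≤ limsup (fun t => sSup (L γ a '' S γ a b t) / L γ a t) (𝓝[>] a) := by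
  by_contra hcon
  push Not at hcon
  have hr' : BoundedVariationOn (toC γ a) (Icc a b) := by
    unfold BoundedVariationOn
    rw [eVariationOn_toC]
    exact hr
  have hc' : ContinuousOn (toC γ a) (Icc a b) := by
    intro x hx
    have h1 := hc x hx
    rw [ContinuousWithinAt, tendsto_iff_dist_tendsto_zero] at h1 ⊢
    simpa only [dist_toC] using h1
  have hmono : ∀ τ t, a ≤ τ → τ ≤ t → t ≤ b → L γ a τ ≤ L γ a t := by
    intro τ t h1 h2 h3
    rw [← len_toC, ← len_toC]
    exact V11210.ARC.len_mono hr' h1 h2 h3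
  have hnn : ∀ t, 0 ≤ L γ a t := fun t => ENNReal.toReal_nonneg
  have hbdd : ∀ t ∈ Ioo a b, L γ a t ∈ upperBounds (L γ a '' S γ a b t) := by
    rintro t ht _ ⟨τ, hτ, rfl⟩
    exact hmono τ t hτ.1.1.le hτ.1.2 ht.2.le
  have hpos : ∀ t ∈ Ioo a b, 0 < L γ a t := by
    intro t ht
    obtain ⟨x, hx, hxt, hne⟩ := hn (t - a) (by linarith [ht.1])
    have h1 := V11210.ARC.norm_le_len hr' (s := a) (t := x) le_rfl hx.1 hx.2
    rw [← dist_eq_norm, dist_toC, len_toC, len_toC] at h1
    have h2 : 0 < dist (γ x) (γ a) := dist_pos.2 hne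
    have h3 := hmono x t hx.1 (by linarith) ht.2.le
    have h4 := hnn a
    linarith
  have hbd : IsBoundedUnder (· ≤ ·) (𝓝[>] a)
      (fun t => sSup (L γ a '' S γ a b t) / L γ a t) := by
    refine ⟨1, ?_⟩
    rw [eventually_map]
    filter_upwards [Ioo_mem_nhdsGT hab] with t ht
    refine div_le_one_of_le₀ ?_ (hnn t)
    exact Real.sSup_le (fun x hx => hbdd t ht hx) (hnn t)
  obtain ⟨c, hc1, hc2⟩ := exists_between hcon
  have hev := eventually_lt_of_limsup_lt hc1 hbd
  have hev2 := hev.and (Ioo_mem_nhdsGT hab)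
  rw [eventually_and] at hev2
  obtain ⟨t₁, ht₁, hsub⟩ := (mem_nhdsGT_iff_exists_Ioo_subset' hab).1 (hev2.1.and hev2.2)
  have ht₁' : a < t₁ := ht₁
  -- positivity of `c`
  set t₀ := (a + t₁) / 2 with ht₀def
  have ht₀ : t₀ ∈ Ioo a t₁ := ⟨by rw [ht₀def]; linarith, by rw [ht₀def]; linarith⟩
  have ht₀b := (hsub ht₀).2
  have hc0 : 0 < c := by
    have h1 := (hsub ht₀).1
    refine lt_of_le_of_lt ?_ h1
    refine div_nonneg (Real.sSup_nonneg ?_) (hnn _)
    rintro _ ⟨τ, _, rfl⟩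
    exact hnn τ
  set k := - Real.log c with hk
  have hexpk : Real.exp (-k) = c := by
    rw [hk, neg_neg, Real.exp_log hc0]
  have hk1 : 1 < k := by
    have h1 : Real.exp (-k) < Real.exp (-1) := by
      rw [hexpk, Real.exp_neg 1, ← one_div]
      exact hc2
    have := Real.exp_lt_exp.1 h1
    linarith
  refine V11210.ARC.reduce (γ := toC γ a) hc' hr' ?_ hk1 ht₀b ?_
  · apply Complex.ext <;> simp [toC]
  · intro t ht τ hτ hsupp
    have htI : t ∈ Ioo a t₁ := ⟨ht.1, lt_of_le_of_lt ht.2 ht₀.2⟩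
    have htb := (hsub htI).2
    have hlt := (hsub htI).1
    have hτS : τ ∈ S γ a b t := by
      refine ⟨hτ, ?_⟩
      rcases hsupp with h | h
      · left
        have : dist (toC γ a t) (toC γ a a) = 0 := by
          rw [h]
          simp [toC, Complex.dist_eq_re_im]
        rw [dist_toC] at this
        exact (dist_eq_zero.1 this).symm
      · right
        simp only [cdet_toC] at h
        rcases h with h | h
        · obtain ⟨δ, hδ, hball⟩ := Metric.eventually_nhds_iff.1 h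
          refine ⟨δ, hδ, Or.inr fun x _ hx => ?_⟩
          have := hball (y := x) (by rwa [Real.dist_eq])
          linarith
        · obtain ⟨δ, hδ, hball⟩ := Metric.eventually_nhds_iff.1 h
          refine ⟨δ, hδ, Or.inl fun x _ hx => ?_⟩
          have := hball (y := x) (by rwa [Real.dist_eq])
          linarith
    rw [len_toC, len_toC, hexpk]
    have h1 : L γ a τ ≤ sSup (L γ a '' S γ a b t) :=
      le_csSup ⟨_, hbdd t htb⟩ ⟨τ, hτS, rfl⟩
    have h2 : sSup (L γ a '' S γ a b t) < c * L γ a t := by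
      have := hpos t htb
      rwa [div_lt_iff₀ this] at hlt
    linarith

end Pool.Agent.Results.MP_c53602_gt.AtLeastInvE
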